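import Mathlib

namespace Pool.Agent.H.MP_b0ed8d_nt

/-- lattice points in the open disc with centre `(x, y)` and radius `r` -/
def enc (x y r : ℝ) : Set (ℤ × ℤ) := {p | ((p.1 : ℝ) - x) ^ 2 + ((p.2 : ℝ) - y) ^ 2 < r ^ 2}

/-- lattice points on the circle with centre `(x, y)` and radius `r` -/
def bdry (x y r : ℝ) : Set (ℤ × ℤ) := {p | ((p.1 : ℝ) - x) ^ 2 + ((p.2 : ℝ) - y) ^ 2 = r ^ 2}

/-- the circle with centre `(x, y)` and radius `r > 0` encloses exactly `n` lattice points -/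
def Encl (n : ℕ) (x y r : ℝ) : Prop := 0 < r ∧ (enc x y r).encard = (n : ℕ∞)

/-- the circle is a largest `n`-enclosing circle -/
def MCc (n : ℕ) (x y r : ℝ) : Prop :=
  Encl n x y r ∧ ∀ x' y' r' : ℝ, Encl n x' y' r' → r' ≤ r

/-- `n` is an MC number: a largest `n`-enclosing circle exists -/
def IsMC (n : ℕ) : Prop := ∃ x y r : ℝ, MCc n x y r

end Pool.Agent.H.MP_b0ed8d_nt
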