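import Mathlib
import Pool.Agent.H.MP_b0ed8d_nt.Defs

namespace Pool.Agent.H.MP_b0ed8d_nt

open Classical Filter Topology

def encq (x y ρ : ℝ) : Set (ℤ × ℤ) := {p | ((p.1 : ℝ) - x) ^ 2 + ((p.2 : ℝ) - y) ^ 2 < ρ}

lemma encq_trans (x y ρ : ℝ) (k l : ℤ) :
    (encq (x + k) (y + l) ρ).encard = (encq x y ρ).encard := by
  have h : encq (x + k) (y + l) ρ = (fun p : ℤ × ℤ => p + (k, l)) '' encq x y ρ := by
    ext p
    constructor
    · intro hp
      refine ⟨p - (k, l), ?_, by simp⟩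
      simp only [encq, Set.mem_setOf_eq, Prod.fst_sub, Prod.snd_sub] at hp ⊢
      push_cast
      convert hp using 3 <;> ring
    · rintro ⟨q, hq, rfl⟩
      simp only [encq, Set.mem_setOf_eq, Prod.fst_add, Prod.snd_add] at hq ⊢
      push_cast
      convert hq using 3 <;> ring
  rw [h]
  exact (add_left_injective (k, l)).encard_image _

def grid (N : ℕ) : List (ℕ × ℕ) := List.range N ×ˢ List.range N

lemma grid_nodup (N : ℕ) : (grid N).Nodup := List.Nodup.product List.nodup_range List.nodup_range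

lemma mem_grid (N : ℕ) (p : ℕ × ℕ) : p ∈ grid N ↔ p.1 < N ∧ p.2 < N := by
  obtain ⟨a, b⟩ := p
  simp [grid]

def cz (p : ℕ × ℕ) : ℤ × ℤ := ((p.1 : ℤ), (p.2 : ℤ))

lemma cz_inj : Function.Injective cz := by
  rintro ⟨a, b⟩ ⟨c, d⟩ h
  simp only [cz, Prod.mk.injEq, Nat.cast_inj] at h
  exact Prod.ext h.1 h.2

lemma encard_img (N : ℕ) (P : ℕ × ℕ → Bool) :
    (cz '' {p | p ∈ grid N ∧ P p = true}).encard = ((grid N).countP P : ℕ) := by
  rw [cz_inj.encard_image]
  have h : {p | p ∈ grid N ∧ P p = true} = (((grid N).filter P).toFinset : Set (ℕ × ℕ)) := by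
    ext p; simp
  rw [h, Set.encard_coe_eq_coe_finsetCard,
    List.toFinset_card_of_nodup ((grid_nodup N).filter P), List.countP_eq_length_filter]

lemma encard_ge (N : ℕ) (A : Set (ℤ × ℤ)) (P : ℕ × ℕ → Bool)
    (h : ∀ p ∈ grid N, P p = true → cz p ∈ A) : (((grid N).countP P : ℕ) : ℕ∞) ≤ A.encard := by
  rw [← encard_img]
  apply Set.encard_le_encard
  rintro _ ⟨p, ⟨h1, h2⟩, rfl⟩
  exact h p h1 h2

lemma encard_eq (N : ℕ) (A : Set (ℤ × ℤ)) (P : ℕ × ℕ → Bool)
    (h : ∀ p ∈ grid N, P p = true ↔ cz p ∈ A)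
    (h2 : ∀ z ∈ A, 0 ≤ z.1 ∧ z.1 < N ∧ 0 ≤ z.2 ∧ z.2 < N) :
    A.encard = (((grid N).countP P : ℕ) : ℕ∞) := by
  rw [← encard_img]
  congr 1
  ext z
  constructor
  · intro hz
    obtain ⟨a1, a2, a3, a4⟩ := h2 z hz
    have e : cz (z.1.toNat, z.2.toNat) = z := by
      simp only [cz]; ext <;> simp <;> omega
    have hm : (z.1.toNat, z.2.toNat) ∈ grid N := by
      rw [mem_grid]; constructor <;> simp only <;> omega
    exact ⟨_, ⟨hm, (h _ hm).2 (e.symm ▸ hz)⟩, e⟩
  · rintro ⟨p, ⟨h1, h3⟩, rfl⟩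
    exact (h p h1).1 h3

noncomputable def ins (x y ρ : ℝ) (p : ℕ × ℕ) : Bool :=
  decide (((p.1 : ℝ) - x) ^ 2 + ((p.2 : ℝ) - y) ^ 2 < ρ)

lemma ins_le (N : ℕ) (x y ρ : ℝ) :
    (((grid N).countP (ins x y ρ) : ℕ) : ℕ∞) ≤ (encq x y ρ).encard := by
  apply encard_ge
  intro p _ hp
  simpa [ins, encq, cz] using hp

def sq2 (a b : ℕ) : ℕ := Nat.add (Nat.mul a a) (Nat.mul b b)
def far (X H A : ℕ) : ℕ := Nat.max (Nat.sub (Nat.add X H) A) (Nat.sub A X)
def near (X H A : ℕ) : ℕ := Nat.add (Nat.sub X A) (Nat.sub A (Nat.add X H))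
def sure (S T X Y H : ℕ) (p : ℕ × ℕ) : Bool :=
  Nat.blt (sq2 (far X H (Nat.mul p.1 S)) (far Y H (Nat.mul p.2 S))) T
def poss (S T X Y H : ℕ) (p : ℕ × ℕ) : Bool :=
  Nat.blt (sq2 (near X H (Nat.mul p.1 S)) (near Y H (Nat.mul p.2 S))) T

lemma far_ge (X H A : ℕ) (u : ℝ) (h1 : (X : ℝ) ≤ u) (h2 : u ≤ X + H) :
    ((A : ℝ) - u) ^ 2 ≤ (far X H A : ℝ) * (far X H A : ℝ) := by
  have a1 : X + H ≤ far X H A + A := by
    simp only [far, Nat.add_eq, Nat.sub_eq, Nat.max_eq_max]; omega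
  have a2 : A ≤ far X H A + X := by
    simp only [far, Nat.add_eq, Nat.sub_eq, Nat.max_eq_max]; omega
  have b1 : (X : ℝ) + H ≤ far X H A + A := by exact_mod_cast a1
  have b2 : (A : ℝ) ≤ far X H A + X := by exact_mod_cast a2
  rw [← sq]
  exact sq_le_sq' (by linarith) (by linarith)

lemma sure_ins (S T X Y H : ℕ) (x y ρ : ℝ) (hS : 0 < S) (hρ : (T : ℝ) ≤ ρ * S ^ 2)
    (h1 : (X : ℝ) ≤ x * S) (h2 : x * S ≤ X + H) (h3 : (Y : ℝ) ≤ y * S) (h4 : y * S ≤ Y + H)
    (p : ℕ × ℕ) (h : sure S T X Y H p = true) : ins x y ρ p = true := by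
  simp only [sure, sq2, Nat.blt_eq, Nat.add_eq, Nat.mul_eq] at h
  have a1 := far_ge X H (p.1 * S) _ h1 h2
  have a2 := far_ge Y H (p.2 * S) _ h3 h4
  have a3 : ((far X H (p.1 * S) * far X H (p.1 * S) + far Y H (p.2 * S) * far Y H (p.2 * S) : ℕ) : ℝ)
    < T := by exact_mod_cast h
  push_cast at a1 a2 a3
  simp only [ins, decide_eq_true_eq]
  have hS' : (0 : ℝ) < (S : ℝ) ^ 2 := by positivity
  apply lt_of_mul_lt_mul_right _ hS'.le
  nlinarith

def scan (s q : ℕ × ℕ → Bool) (k : ℕ → List (ℕ × ℕ) → Bool) :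
    List (ℕ × ℕ) → ℕ → List (ℕ × ℕ) → Bool
  | [], n, acc => match n with
    | 0 => true
    | m + 1 => k (Nat.succ m) acc
  | p :: ps, n, acc => match n with
    | 0 => true
    | m + 1 => bif s p then scan s q k ps m acc
        else bif q p then scan s q k ps (Nat.succ m) (p :: acc) else scan s q k ps (Nat.succ m) acc

lemma scan_sound (s q I : ℕ × ℕ → Bool) (k : ℕ → List (ℕ × ℕ) → Bool)
    (hs : ∀ p, s p = true → I p = true) (hk : ∀ n l, k n l = true → n ≤ l.countP I) :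
    ∀ (l : List (ℕ × ℕ)) (n : ℕ) (acc : List (ℕ × ℕ)), scan s q k l n acc = true →
      n ≤ l.countP I + acc.countP I := by
  intro l
  induction l with
  | nil =>
    intro n acc h
    cases n with
    | zero => omega
    | succ m => simpa using hk _ _ h
  | cons p ps ih =>
    intro n acc h
    cases n with
    | zero => omega
    | succ m =>
      simp only [scan] at h
      cases h1 : s p with
      | true =>
        rw [h1] at h
        have := ih _ _ h
        rw [List.countP_cons, hs p h1]; simp only [if_true]; omega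
      | false =>
        rw [h1] at h
        cases h2 : q p with
        | true =>
          rw [h2] at h
          have := ih _ _ h
          rw [List.countP_cons] at this ⊢; omega
        | false =>
          rw [h2] at h
          have := ih _ _ h
          rw [List.countP_cons]; omega

def frc (x : ℕ) (f : ℕ → Bool) : Bool :=
  match x with
  | 0 => f 0
  | k + 1 => f (Nat.succ k)

lemma frc_eq (x : ℕ) (f : ℕ → Bool) : frc x f = f x := by
  cases x <;> rfl

def chk (ok : ℕ → ℕ → ℕ → Bool) (S T : ℕ) : ℕ → ℕ → ℕ → ℕ → ℕ → List (ℕ × ℕ) → Bool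
  | 0, _, _, _, _, _ => false
  | f + 1, X, Y, H, n, l => ok X Y H || scan (sure S T X Y H) (poss S T X Y H)
      (fun m acc => frc (H / 2) fun h => frc (H - h) fun g => frc (X + h) fun X' =>
        frc (Y + h) fun Y' =>
        chk ok S T f X Y g m acc && chk ok S T f X' Y g m acc &&
        chk ok S T f X Y' g m acc && chk ok S T f X' Y' g m acc) l n []

lemma chk_sound (ok : ℕ → ℕ → ℕ → Bool) (S T : ℕ) (x y ρ : ℝ) (hS : 0 < S)
    (hρ : (T : ℝ) ≤ ρ * S ^ 2)
    (hok : ∀ X Y H : ℕ, ok X Y H = true → (X : ℝ) ≤ x * S → x * S ≤ X + H → (Y : ℝ) ≤ y * S →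
      y * S ≤ Y + H → False) :
    ∀ (f X Y H n : ℕ) (l : List (ℕ × ℕ)), chk ok S T f X Y H n l = true →
      (X : ℝ) ≤ x * S → x * S ≤ X + H → (Y : ℝ) ≤ y * S → y * S ≤ Y + H →
      n ≤ l.countP (ins x y ρ) := by
  intro f
  induction f with
  | zero => intro X Y H n l h; simp [chk] at h
  | succ f ih =>
    intro X Y H n l h h1 h2 h3 h4
    simp only [chk, Bool.or_eq_true] at h
    rcases h with h | h
    · exact (hok X Y H h h1 h2 h3 h4).elim
    · have := scan_sound _ _ (ins x y ρ) _ (sure_ins S T X Y H x y ρ hS hρ h1 h2 h3 h4) ?_ l n [] h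
      · simpa using this
      · intro m acc hk
        simp only [frc_eq, Bool.and_eq_true] at hk
        obtain ⟨⟨⟨k1, k2⟩, k3⟩, k4⟩ := hk
        have e1 : ((H / 2 : ℕ) : ℝ) + ((H - H / 2 : ℕ) : ℝ) = H := by
          exact_mod_cast (by omega : H / 2 + (H - H / 2) = H)
        have e2 : ((H / 2 : ℕ) : ℝ) ≤ ((H - H / 2 : ℕ) : ℝ) := by
          exact_mod_cast (by omega : H / 2 ≤ H - H / 2)
        have eX : ((X + H / 2 : ℕ) : ℝ) = X + ((H / 2 : ℕ) : ℝ) := Nat.cast_add _ _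
        have eY : ((Y + H / 2 : ℕ) : ℝ) = Y + ((H / 2 : ℕ) : ℝ) := Nat.cast_add _ _
        rcases le_total (x * S) (X + ((H / 2 : ℕ) : ℝ)) with c1 | c1 <;>
          rcases le_total (y * S) (Y + ((H / 2 : ℕ) : ℝ)) with c2 | c2
        · exact ih _ _ _ _ _ k1 h1 (by linarith) h3 (by linarith)
        · exact ih _ _ _ _ _ k3 h1 (by linarith) (by rw [eY]; linarith) (by rw [eY]; linarith)
        · exact ih _ _ _ _ _ k2 (by rw [eX]; linarith) (by rw [eX]; linarith) h3 (by linarith)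
        · exact ih _ _ _ _ _ k4 (by rw [eX]; linarith) (by rw [eX]; linarith)
            (by rw [eY]; linarith) (by rw [eY]; linarith)

end Pool.Agent.H.MP_b0ed8d_nt
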