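import Mathlib
import Pool.Agent.H.MP_b0ed8d_nt.A

namespace Pool.Agent.H.MP_b0ed8d_nt

open Classical Filter Topology

def ad (a b : ℕ) : ℕ := Nat.add (Nat.sub a b) (Nat.sub b a)
def d2 (S : ℕ) (c p : ℕ × ℕ) : ℕ := sq2 (ad (Nat.mul p.1 S) c.1) (ad (Nat.mul p.2 S) c.2)

lemma ad_sq (a b : ℕ) : ((ad a b : ℕ) : ℝ) * (ad a b : ℕ) = ((a : ℝ) - b) ^ 2 := by
  simp only [ad, Nat.add_eq, Nat.sub_eq]
  rcases le_total a b with h | h
  · rw [Nat.sub_eq_zero_of_le h, Nat.zero_add, Nat.cast_sub h]; ring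
  · rw [Nat.sub_eq_zero_of_le h, Nat.add_zero, Nat.cast_sub h]; ring

lemma d2_cast (S : ℕ) (c p : ℕ × ℕ) :
    ((d2 S c p : ℕ) : ℝ) = ((p.1 : ℝ) * S - c.1) ^ 2 + ((p.2 : ℝ) * S - c.2) ^ 2 := by
  simp only [d2, sq2, Nat.add_eq, Nat.mul_eq]
  rw [Nat.cast_add, Nat.cast_mul, Nat.cast_mul, ad_sq, ad_sq]
  push_cast; ring

def okc (e : ℕ) (X Y H : ℕ) (c : ℕ × ℕ) : Bool :=
  Nat.ble c.1 (X + e) && Nat.ble (X + H) (c.1 + e) && Nat.ble c.2 (Y + e) && Nat.ble (Y + H) (c.2 + e)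

def ok (cs : List (ℕ × ℕ)) (e : ℕ) (X Y H : ℕ) : Bool := cs.any (okc e X Y H)

lemma ok_spec (cs : List (ℕ × ℕ)) (e : ℕ) (u v : ℝ)
    (h : ∀ c ∈ cs, (e : ℝ) < |u - c.1| ∨ (e : ℝ) < |v - c.2|) (X Y H : ℕ)
    (hk : ok cs e X Y H = true) (h1 : (X : ℝ) ≤ u) (h2 : u ≤ X + H) (h3 : (Y : ℝ) ≤ v)
    (h4 : v ≤ Y + H) : False := by
  simp only [ok, List.any_eq_true, okc, Bool.and_eq_true, Nat.ble_eq] at hk
  obtain ⟨c, hc, ⟨⟨a1, a2⟩, a3⟩, a4⟩ := hk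
  have b1 : (c.1 : ℝ) ≤ X + e := by exact_mod_cast a1
  have b2 : (X : ℝ) + H ≤ c.1 + e := by exact_mod_cast a2
  have b3 : (c.2 : ℝ) ≤ Y + e := by exact_mod_cast a3
  have b4 : (Y : ℝ) + H ≤ c.2 + e := by exact_mod_cast a4
  rcases h c hc with h5 | h5
  · exact absurd h5 (not_lt.2 (abs_le.2 ⟨by linarith, by linarith⟩))
  · exact absurd h5 (not_lt.2 (abs_le.2 ⟨by linarith, by linarith⟩))

def closedL (S T N : ℕ) (c : ℕ × ℕ) : List (ℕ × ℕ) :=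
  (grid N).filter (fun p => Nat.ble (d2 S c p) T)

lemma local_sound (S T N e f n : ℕ) (c : ℕ × ℕ) (hS : 0 < S) (he : 0 < e)
    (hc1 : 2 * e ≤ c.1) (hc2 : 2 * e ≤ c.2)
    (h : chk (ok [c] e) S T f (c.1 - 2 * e) (c.2 - 2 * e) (4 * e) n (closedL S T N c) = true)
    (x y ρ : ℝ) (hρ : (T : ℝ) ≤ ρ * S ^ 2) (hx : |x * S - c.1| ≤ e) (hy : |y * S - c.2| ≤ e)
    (hne : ¬ (x * S = c.1 ∧ y * S = c.2)) : n ≤ (grid N).countP (ins x y ρ) := by
  have hS' : (0 : ℝ) < S := by exact_mod_cast hS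
  have he' : (0 : ℝ) < e := by exact_mod_cast he
  set w1 := x * S - c.1 with hw1
  set w2 := y * S - c.2 with hw2
  set m := max |w1| |w2| with hm
  have hm0 : 0 < m := by
    by_contra h0
    push Not at h0
    have a1 : |w1| ≤ 0 := (le_max_left _ _).trans h0
    have a2 : |w2| ≤ 0 := (le_max_right _ _).trans h0
    have b1 := abs_nonpos_iff.1 a1
    have b2 := abs_nonpos_iff.1 a2
    exact hne ⟨by linarith, by linarith⟩
  have hme : m ≤ e := max_le hx hy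
  set t := 2 * e / m with ht
  have htm : t * m = 2 * e := by rw [ht]; field_simp
  have ht2 : 2 ≤ t := by rw [ht, le_div_iff₀ hm0]; linarith
  have ht0 : 0 < t := by linarith
  set x' := (c.1 + t * w1) / S with hx'
  set y' := (c.2 + t * w2) / S with hy'
  have ex : x' * S = c.1 + t * w1 := by rw [hx']; field_simp
  have ey : y' * S = c.2 + t * w2 := by rw [hy']; field_simp
  have b1 : |t * w1| ≤ 2 * e := by
    rw [abs_mul, abs_of_pos ht0, ← htm]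
    exact mul_le_mul_of_nonneg_left (le_max_left _ _) ht0.le
  have b2 : |t * w2| ≤ 2 * e := by
    rw [abs_mul, abs_of_pos ht0, ← htm]
    exact mul_le_mul_of_nonneg_left (le_max_right _ _) ht0.le
  have b3 : (e : ℝ) < |t * w1| ∨ (e : ℝ) < |t * w2| := by
    rw [abs_mul, abs_mul, abs_of_pos ht0]
    rcases le_total |w1| |w2| with k | k
    · right; rw [← max_eq_right k, ← hm, htm]; linarith
    · left; rw [← max_eq_left k, ← hm, htm]; linarith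
  have c1 : ((c.1 - 2 * e : ℕ) : ℝ) = c.1 - 2 * e := by rw [Nat.cast_sub hc1]; push_cast; ring
  have c2 : ((c.2 - 2 * e : ℕ) : ℝ) = c.2 - 2 * e := by rw [Nat.cast_sub hc2]; push_cast; ring
  have c3 : ((4 * e : ℕ) : ℝ) = 4 * e := by push_cast; ring
  have hT : (T : ℝ) = T / S ^ 2 * S ^ 2 := by field_simp
  obtain ⟨b11, b12⟩ := abs_le.1 b1
  obtain ⟨b21, b22⟩ := abs_le.1 b2
  have key := chk_sound (ok [c] e) S T x' y' (T / S ^ 2) hS hT.le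
    (ok_spec [c] e (x' * S) (y' * S) (by
      intro c' hc'
      rw [List.mem_singleton.1 hc', ex, ey]
      simpa using b3)) f _ _ _ n _ h (by rw [c1, ex]; linarith) (by rw [c1, c3, ex]; linarith)
      (by rw [c2, ey]; linarith) (by rw [c2, c3, ey]; linarith)
  refine key.trans ?_
  rw [closedL, List.countP_filter]
  apply List.countP_mono_left
  intro p _ hp
  simp only [Bool.and_eq_true, Nat.ble_eq, ins, decide_eq_true_eq] at hp ⊢
  obtain ⟨p1, p2⟩ := hp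
  have p3 : ((d2 S c p : ℕ) : ℝ) ≤ T := by exact_mod_cast p2
  rw [d2_cast] at p3
  have hS2 : (0 : ℝ) < (S : ℝ) ^ 2 := by positivity
  have p4 := mul_lt_mul_of_pos_right p1 hS2
  rw [← hT] at p4
  set a := (p.1 : ℝ) * S - c.1 with ha
  set b := (p.2 : ℝ) * S - c.2 with hb
  have q1 : (((p.1 : ℝ) - x') ^ 2 + ((p.2 : ℝ) - y') ^ 2) * S ^ 2 = (a - t * w1) ^ 2 + (b - t * w2) ^ 2 := by
    have : (((p.1 : ℝ) - x') ^ 2 + ((p.2 : ℝ) - y') ^ 2) * S ^ 2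
      = (p.1 * S - x' * S) ^ 2 + (p.2 * S - y' * S) ^ 2 := by ring
    rw [this, ex, ey, ha, hb]; ring
  have q2 : (((p.1 : ℝ) - x) ^ 2 + ((p.2 : ℝ) - y) ^ 2) * S ^ 2 = (a - w1) ^ 2 + (b - w2) ^ 2 := by
    rw [ha, hb, hw1, hw2]; ring
  rw [q1] at p4
  apply lt_of_mul_lt_mul_right _ hS2.le
  rw [q2]
  have q3 : t * ((a - w1) ^ 2 + (b - w2) ^ 2) = (t - 1) * (a ^ 2 + b ^ 2) +
      ((a - t * w1) ^ 2 + (b - t * w2) ^ 2) - t * (t - 1) * (w1 ^ 2 + w2 ^ 2) := by ring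
  have q4 : 0 ≤ t * (t - 1) * (w1 ^ 2 + w2 ^ 2) := by
    apply mul_nonneg (mul_nonneg ht0.le (by linarith)); positivity
  have q5 : (t - 1) * (a ^ 2 + b ^ 2) ≤ (t - 1) * T := mul_le_mul_of_nonneg_left p3 (by linarith)
  have q6 : t * ((a - w1) ^ 2 + (b - w2) ^ 2) < t * T := by linarith
  have q7 := lt_of_mul_lt_mul_left q6 ht0.le
  linarith

/-- margin conditions for the box -/
def marg (S T N G : ℕ) (c : ℕ × ℕ) : Bool :=
  Nat.ble (T + 1) (G * G) && Nat.ble (G + 1) c.1 && Nat.ble (G + 1) c.2 &&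
    Nat.ble (c.1 + G + 1) (N * S) && Nat.ble (c.2 + G + 1) (N * S)

lemma box1 (S N G c : ℕ) (hS : 0 < S) (h1 : G + 1 ≤ c) (h2 : c + G + 1 ≤ N * S) (z : ℤ) (u : ℝ)
    (hu : |u - c| ≤ 1) (hz : ((z : ℝ) * S - u) ^ 2 < (G : ℝ) ^ 2) : 0 ≤ z ∧ z < N := by
  have hS' : (0 : ℝ) < S := by exact_mod_cast hS
  obtain ⟨a1, a2⟩ := abs_le.1 hu
  obtain ⟨a3, a4⟩ := abs_lt.1 (abs_lt_of_sq_lt_sq hz (Nat.cast_nonneg G))
  have b1 : (G : ℝ) + 1 ≤ c := by exact_mod_cast h1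
  have b2 : (c : ℝ) + G + 1 ≤ N * S := by exact_mod_cast h2
  constructor
  · have : (0 : ℝ) * S < z * S := by linarith
    have := lt_of_mul_lt_mul_right this hS'.le
    exact_mod_cast this.le
  · have : (z : ℝ) * S < N * S := by linarith
    have := lt_of_mul_lt_mul_right this hS'.le
    exact_mod_cast this

lemma box2 (S T N G : ℕ) (c : ℕ × ℕ) (hS : 0 < S) (hm : marg S T N G c = true) (x y : ℝ)
    (hx : |x * S - c.1| ≤ 1) (hy : |y * S - c.2| ≤ 1) (z : ℤ × ℤ)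
    (hz : (((z.1 : ℝ) - x) ^ 2 + ((z.2 : ℝ) - y) ^ 2) * S ^ 2 < T + 1) :
    0 ≤ z.1 ∧ z.1 < N ∧ 0 ≤ z.2 ∧ z.2 < N := by
  simp only [marg, Bool.and_eq_true, Nat.ble_eq] at hm
  obtain ⟨⟨⟨⟨m1, m2⟩, m3⟩, m4⟩, m5⟩ := hm
  have b1 : (T : ℝ) + 1 ≤ G * G := by exact_mod_cast m1
  have e : (((z.1 : ℝ) - x) ^ 2 + ((z.2 : ℝ) - y) ^ 2) * S ^ 2
    = (z.1 * S - x * S) ^ 2 + (z.2 * S - y * S) ^ 2 := by ring
  rw [e] at hz
  have k1 := box1 S N G c.1 hS m2 m4 z.1 (x * S) hx (by nlinarith [sq_nonneg (z.2 * S - y * S)])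
  have k2 := box1 S N G c.2 hS m3 m5 z.2 (y * S) hy (by nlinarith [sq_nonneg (z.1 * S - x * S)])
  exact ⟨k1.1, k1.2, k2.1, k2.2⟩

lemma scale_eq (S : ℕ) (c p : ℕ × ℕ) (x y : ℝ) (hx : x * S = c.1) (hy : y * S = c.2) :
    (((p.1 : ℝ) - x) ^ 2 + ((p.2 : ℝ) - y) ^ 2) * S ^ 2 = (d2 S c p : ℕ) := by
  rw [d2_cast, ← hx, ← hy]; ring

lemma center_count (S T N G : ℕ) (c : ℕ × ℕ) (hS : 0 < S) (hm : marg S T N G c = true)
    (x y ρ : ℝ) (hx : x * S = c.1) (hy : y * S = c.2) (hρ : ρ * S ^ 2 = T) :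
    (encq x y ρ).encard = (((grid N).countP (fun p => Nat.blt (d2 S c p) T) : ℕ) : ℕ∞) := by
  have hS2 : (0 : ℝ) < (S : ℝ) ^ 2 := by positivity
  apply encard_eq
  · intro p _
    simp only [Nat.blt_eq, encq, cz, Set.mem_setOf_eq, Int.cast_natCast]
    rw [← mul_lt_mul_iff_left₀ hS2, scale_eq S c p x y hx hy, hρ]
    exact Nat.cast_lt.symm
  · intro z hz
    apply box2 S T N G c hS hm x y (by rw [hx]; simp) (by rw [hy]; simp)
    have := mul_lt_mul_of_pos_right hz hS2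
    linarith

lemma bdry_count (S T N G : ℕ) (c : ℕ × ℕ) (hS : 0 < S) (hm : marg S T N G c = true)
    (x y r : ℝ) (hx : x * S = c.1) (hy : y * S = c.2) (hρ : r ^ 2 * S ^ 2 = T) :
    (bdry x y r).encard = (((grid N).countP (fun p => Nat.beq (d2 S c p) T) : ℕ) : ℕ∞) := by
  have hS2 : (0 : ℝ) < (S : ℝ) ^ 2 := by positivity
  apply encard_eq
  · intro p _
    simp only [Nat.beq_eq, bdry, cz, Set.mem_setOf_eq, Int.cast_natCast]
    rw [← mul_left_inj' hS2.ne', scale_eq S c p x y hx hy, hρ]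
    exact Nat.cast_inj.symm
  · intro z hz
    apply box2 S T N G c hS hm x y (by rw [hx]; simp) (by rw [hy]; simp)
    have h1 : ((z.1 : ℝ) - x) ^ 2 + ((z.2 : ℝ) - y) ^ 2 = r ^ 2 := hz
    rw [h1]; linarith

def certC (S T N G e f n n0 : ℕ) (c : ℕ × ℕ) : Bool :=
  Nat.ble (2 * e) c.1 && Nat.ble (2 * e) c.2 && marg S T N G c &&
    chk (ok [c] e) S T f (c.1 - 2 * e) (c.2 - 2 * e) (4 * e) n (closedL S T N c) &&
    Nat.ble n (closedL S T N c).length &&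
    Nat.beq ((grid N).countP (fun p => Nat.blt (d2 S c p) T)) n0

theorem thmA (S T N G e f n n0 X0 Y0 : ℕ) (cs : List (ℕ × ℕ)) (hS : 0 < S) (he : 0 < e)
    (h1 : chk (ok cs e) S T f X0 Y0 S n (grid N) = true)
    (h2 : ∀ c ∈ cs, certC S T N G e f n n0 c = true) (x y ρ : ℝ) (hρ : (T : ℝ) ≤ ρ * S ^ 2) :
    (n : ℕ∞) ≤ (encq x y ρ).encard ∨ (ρ * S ^ 2 = T ∧ (encq x y ρ).encard = n0) := by
  have hS' : (0 : ℝ) < S := by exact_mod_cast hS
  have hS2 : (0 : ℝ) < (S : ℝ) ^ 2 := by positivity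
  have tr : ∀ (X : ℕ) (u : ℝ), ∃ k : ℤ, (X : ℝ) ≤ (u + k) * S ∧ (u + k) * S ≤ X + S := by
    intro X u
    refine ⟨⌈(X : ℝ) / S - u⌉, ?_, ?_⟩
    · have := Int.le_ceil ((X : ℝ) / S - u)
      rw [← div_le_iff₀ hS']; linarith
    · have := Int.ceil_lt_add_one ((X : ℝ) / S - u)
      rw [← le_div_iff₀ hS', add_div, div_self hS'.ne']; linarith
  obtain ⟨k, k1, k2⟩ := tr X0 x
  obtain ⟨l, l1, l2⟩ := tr Y0 y
  rw [← encq_trans x y ρ k l]
  set x' := x + k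
  set y' := y + l
  have fin : n ≤ (grid N).countP (ins x' y' ρ) → (n : ℕ∞) ≤ (encq x' y' ρ).encard := by
    intro h
    exact le_trans (by exact_mod_cast h) (ins_le N x' y' ρ)
  by_cases hc : ∀ c ∈ cs, (e : ℝ) < |x' * S - c.1| ∨ (e : ℝ) < |y' * S - c.2|
  · left
    exact fin (chk_sound _ S T x' y' ρ hS hρ (ok_spec cs e _ _ hc) f _ _ _ n _ h1 k1 k2 l1 l2)
  · push Not at hc
    obtain ⟨c, hc, c1, c2⟩ := hc
    have h3 := h2 c hc
    simp only [certC, Bool.and_eq_true, Nat.ble_eq, Nat.beq_eq] at h3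
    obtain ⟨⟨⟨⟨⟨a1, a2⟩, a3⟩, a4⟩, a5⟩, a6⟩ := h3
    by_cases hne : x' * S = c.1 ∧ y' * S = c.2
    · rcases hρ.eq_or_lt with r | r
      · right
        exact ⟨r.symm, by rw [center_count S T N G c hS a3 x' y' ρ hne.1 hne.2 r.symm, a6]⟩
      · left
        apply fin
        refine a5.trans ?_
        rw [closedL, ← List.countP_eq_length_filter]
        apply List.countP_mono_left
        intro p _ hp
        simp only [Nat.ble_eq, ins, decide_eq_true_eq] at hp ⊢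
        apply lt_of_mul_lt_mul_right _ hS2.le
        rw [scale_eq S c p x' y' hne.1 hne.2]
        have : ((d2 S c p : ℕ) : ℝ) ≤ T := by exact_mod_cast hp
        linarith
    · left
      exact fin (local_sound S T N e f n c hS he a1 a2 a4 x' y' ρ hρ c1 c2 hne)

end Pool.Agent.H.MP_b0ed8d_nt
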