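import Mathlib
import Pool.Agent.H.MP_b0ed8d_nt.B

namespace Pool.Agent.H.MP_b0ed8d_nt

open Classical Filter Topology

def FF (S : ℕ) (c : ℕ × ℕ) (v1 v2 s : ℤ) (p : ℕ × ℕ) : ℤ :=
  2 * (((p.1 : ℤ) * S - c.1) * v1 + ((p.2 : ℤ) * S - c.2) * v2) - s

def condB (S T : ℕ) (c : ℕ × ℕ) (v1 v2 s : ℤ) (p : ℕ × ℕ) : Bool :=
  Nat.blt (d2 S c p) T || (Nat.beq (d2 S c p) T && decide (0 < FF S c v1 v2 s p))

lemma ev_iff (E F : ℝ) : ∀ᶠ ε in 𝓝[>] (0 : ℝ), (E < ε * F ↔ (E < 0 ∨ (E = 0 ∧ 0 < F))) := by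
  have hc : Tendsto (fun ε : ℝ => ε * F) (𝓝[>] 0) (𝓝 0) := by
    have : Tendsto (fun ε : ℝ => ε * F) (𝓝 0) (𝓝 (0 * F)) :=
      (continuous_id.mul continuous_const).tendsto 0
    rw [zero_mul] at this
    exact this.mono_left nhdsWithin_le_nhds
  rcases lt_trichotomy E 0 with h | h | h
  · filter_upwards [hc.eventually (lt_mem_nhds h)] with ε h1
    exact ⟨fun _ => Or.inl h, fun _ => h1⟩
  · filter_upwards [self_mem_nhdsWithin] with ε h1
    have h2 : 0 < ε := h1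
    rw [h]
    simp only [lt_irrefl, false_or, true_and]
    exact ⟨fun h3 => (pos_iff_pos_of_mul_pos h3).1 h2, fun h3 => mul_pos h2 h3⟩
  · filter_upwards [hc.eventually (gt_mem_nhds h)] with ε h1
    constructor
    · intro h2; linarith
    · rintro (h2 | ⟨h2, _⟩) <;> linarith

theorem thmB (S T N G n : ℕ) (c : ℕ × ℕ) (v1 v2 s : ℤ) (hS : 0 < S)
    (hm : marg S T N G c = true) (hn : (grid N).countP (condB S T c v1 v2 s) = n)
    (ρ0 : ℝ) (h0 : ρ0 * S ^ 2 < T) : ∃ x y ρ : ℝ, ρ0 < ρ ∧ (encq x y ρ).encard = n := by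
  have hS' : (0 : ℝ) < S := by exact_mod_cast hS
  have hS2 : (0 : ℝ) < (S : ℝ) ^ 2 := by positivity
  have e1 : ∀ᶠ ε in 𝓝[>] (0 : ℝ), ∀ p ∈ {p | p ∈ grid N},
      (((d2 S c p : ℕ) : ℝ) - T < ε * (FF S c v1 v2 s p : ℤ) ↔
        (((d2 S c p : ℕ) : ℝ) - T < 0 ∨ (((d2 S c p : ℕ) : ℝ) - T = 0 ∧
          (0 : ℝ) < (FF S c v1 v2 s p : ℤ)))) := by
    rw [eventually_all_finite (List.finite_toSet (grid N))]
    intro p _
    exact ev_iff _ _
  have lim : ∀ g : ℝ → ℝ, Continuous g → g 0 = 0 → Tendsto g (𝓝[>] 0) (𝓝 0) := by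
    intro g hg g0
    have := hg.tendsto 0
    rw [g0] at this
    exact this.mono_left nhdsWithin_le_nhds
  have l1 := lim (fun ε => |ε * v1|) (by fun_prop) (by simp)
  have l2 := lim (fun ε => |ε * v2|) (by fun_prop) (by simp)
  have l3 := lim (fun ε => -(ε * s) + ε ^ 2 * ((v1 : ℝ) ^ 2 + (v2 : ℝ) ^ 2)) (by fun_prop) (by simp)
  have e2 := l1.eventually (gt_mem_nhds (zero_lt_one' ℝ))
  have e3 := l2.eventually (gt_mem_nhds (zero_lt_one' ℝ))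
  have e4 := l3.eventually (gt_mem_nhds (zero_lt_one' ℝ))
  have e5 := l3.eventually (lt_mem_nhds (show ρ0 * S ^ 2 - T < 0 by linarith))
  obtain ⟨ε, f1, f2, f3, f4, f5⟩ := (e1.and (e2.and (e3.and (e4.and e5)))).exists
  set D := -(ε * s) + ε ^ 2 * ((v1 : ℝ) ^ 2 + (v2 : ℝ) ^ 2) with hD
  have ex : (c.1 + ε * v1) / S * S = c.1 + ε * v1 := by field_simp
  have ey : (c.2 + ε * v2) / S * S = c.2 + ε * v2 := by field_simp
  have er : (T + D) / S ^ 2 * S ^ 2 = T + D := by field_simp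
  refine ⟨(c.1 + ε * v1) / S, (c.2 + ε * v2) / S, (T + D) / S ^ 2, ?_, ?_⟩
  · apply lt_of_mul_lt_mul_right _ hS2.le
    rw [er]; linarith
  · rw [← hn]
    apply encard_eq
    · intro p hp
      have g1 := f1 p hp
      simp only [condB, Bool.or_eq_true, Bool.and_eq_true, Nat.blt_eq, Nat.beq_eq,
        decide_eq_true_eq, encq, cz, Set.mem_ofPred_eq, Int.cast_natCast]
      rw [← mul_lt_mul_iff_left₀ hS2, er]
      have g2 : (((p.1 : ℝ) - (c.1 + ε * v1) / S) ^ 2 + ((p.2 : ℝ) - (c.2 + ε * v2) / S) ^ 2) * S ^ 2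
          = (d2 S c p : ℕ) - ε * (FF S c v1 v2 s p : ℤ) + D := by
        have : (((p.1 : ℝ) - (c.1 + ε * v1) / S) ^ 2 + ((p.2 : ℝ) - (c.2 + ε * v2) / S) ^ 2) * S ^ 2
          = (p.1 * S - (c.1 + ε * v1) / S * S) ^ 2 + (p.2 * S - (c.2 + ε * v2) / S * S) ^ 2 := by ring
        rw [this, ex, ey, d2_cast, hD, FF]
        push_cast; ring
      rw [g2]
      have g3 : (d2 S c p < T) ↔ ((d2 S c p : ℕ) : ℝ) - T < 0 := by
        rw [sub_neg]; exact Nat.cast_lt.symm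
      have g4 : (d2 S c p = T) ↔ ((d2 S c p : ℕ) : ℝ) - T = 0 := by
        rw [sub_eq_zero]; exact Nat.cast_inj.symm
      have g5 : (0 < FF S c v1 v2 s p) ↔ (0 : ℝ) < (FF S c v1 v2 s p : ℤ) := Int.cast_pos.symm
      rw [g3, g4, g5, ← g1]
      constructor <;> intro h <;> linarith
    · intro z hz
      apply box2 S T N G c hS hm ((c.1 + ε * v1) / S) ((c.2 + ε * v2) / S)
        (by rw [ex]; simpa using f2.le) (by rw [ey]; simpa using f3.le)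
      have := mul_lt_mul_of_pos_right hz hS2
      rw [er] at this
      linarith

theorem thmC (S T m n0 n : ℕ) (hS : 0 < S)
    (hA : ∀ x y ρ : ℝ, (T : ℝ) ≤ ρ * S ^ 2 →
      (m : ℕ∞) ≤ (encq x y ρ).encard ∨ (ρ * S ^ 2 = T ∧ (encq x y ρ).encard = n0))
    (hB : ∀ ρ0 : ℝ, ρ0 * S ^ 2 < T → ∃ x y ρ : ℝ, ρ0 < ρ ∧ (encq x y ρ).encard = n)
    (h1 : n < m) (h2 : n0 ≠ n) : ¬ IsMC n := by
  rintro ⟨x, y, r, ⟨hr, he⟩, hmax⟩
  have he' : (encq x y (r ^ 2)).encard = n := he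
  have a1 : r ^ 2 * S ^ 2 < T := by
    by_contra h
    push Not at h
    rcases hA x y _ h with h3 | ⟨_, h3⟩
    · rw [he'] at h3
      have : m ≤ n := by exact_mod_cast h3
      omega
    · rw [he'] at h3
      have : n = n0 := by exact_mod_cast h3
      omega
  obtain ⟨x', y', ρ, b1, b2⟩ := hB _ a1
  have hρ : 0 < ρ := lt_of_le_of_lt (sq_nonneg r) b1
  have b3 : Encl n x' y' (√ρ) := by
    refine ⟨Real.sqrt_pos.2 hρ, ?_⟩
    have : enc x' y' (√ρ) = encq x' y' ρ := by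
      simp only [enc, encq, Real.sq_sqrt hρ.le]
    rw [this, b2]
  have b4 := hmax _ _ _ b3
  have b5 : r < √ρ := Real.lt_sqrt_of_sq_lt b1
  linarith

theorem thmD (S T m n0 : ℕ) (hS : 0 < S)
    (hA : ∀ x y ρ : ℝ, (T : ℝ) ≤ ρ * S ^ 2 →
      (m : ℕ∞) ≤ (encq x y ρ).encard ∨ (ρ * S ^ 2 = T ∧ (encq x y ρ).encard = n0))
    (h1 : n0 < m) (x y r : ℝ) (hr : 0 < r) (hT : r ^ 2 * S ^ 2 = T)
    (he : (encq x y (r ^ 2)).encard = n0) : MCc n0 x y r := by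
  have hS2 : (0 : ℝ) < (S : ℝ) ^ 2 := by positivity
  refine ⟨⟨hr, he⟩, ?_⟩
  rintro x' y' r' ⟨hr', he'⟩
  have he2 : (encq x' y' (r' ^ 2)).encard = n0 := he'
  by_contra h
  push Not at h
  have a1 : r ^ 2 < r' ^ 2 := by nlinarith
  have a2 := mul_lt_mul_of_pos_right a1 hS2
  rcases hA x' y' (r' ^ 2) (by linarith) with h3 | ⟨h3, _⟩
  · rw [he2] at h3
    have : m ≤ n0 := by exact_mod_cast h3
    omega
  · linarith

end Pool.Agent.H.MP_b0ed8d_nt
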