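import Mathlib
import Pool.Agent.H.MP_b0ed8d_nt.C

namespace Pool.Agent.H.MP_b0ed8d_nt

lemma f50_a : chk (ok [(860160, 851968), (851968, 860160)] 64) 16384 684845957120 15 847872 847872 16384 8001 (grid 106) = true := by
  decide +kernel

lemma f50_c0 : certC 16384 684845957120 106 835584 64 15 8001 7998 (860160, 851968) = true := by
  decide +kernel

lemma f50_c1 : certC 16384 684845957120 106 835584 64 15 8001 7998 (851968, 860160) = true := by
  decide +kernel

lemma f50_A (x y ρ : ℝ) (h : ((684845957120 : ℕ) : ℝ) ≤ ρ * ((16384 : ℕ) : ℝ) ^ 2) :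
    ((8001 : ℕ) : ℕ∞) ≤ (encq x y ρ).encard ∨
      (ρ * ((16384 : ℕ) : ℝ) ^ 2 = (684845957120 : ℕ) ∧ (encq x y ρ).encard = (7998 : ℕ)) := by
  refine thmA 16384 684845957120 106 835584 64 15 8001 7998 847872 847872 [(860160, 851968), (851968, 860160)] (by norm_num) (by norm_num) f50_a ?_ x y ρ h
  intro c hc
  simp only [List.mem_cons, List.not_mem_nil, or_false] at hc
  rcases hc with rfl | rfl
  · exact f50_c0
  · exact f50_c1

lemma f50_m : marg 16384 684845957120 106 835584 (860160, 851968) = true := by
  decide +kernel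

lemma f50_b : (grid 106).countP (condB 16384 684845957120 (860160, 851968) (1) (0) 1654783) = 8000 := by
  decide +kernel

theorem f50_non : ¬ IsMC 8000 :=
  thmC 16384 684845957120 8001 7998 8000 (by norm_num) f50_A
    (thmB 16384 684845957120 106 835584 8000 (860160, 851968) (1) (0) 1654783 (by norm_num) f50_m f50_b) (by norm_num) (by norm_num)

end Pool.Agent.H.MP_b0ed8d_nt
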