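import Mathlib
import Pool.Agent.H.MP_b0ed8d_nt.C

namespace Pool.Agent.H.MP_b0ed8d_nt

lemma g35_a : chk (ok [(614400, 614400)] 64) 16384 330846699520 15 606208 606208 16384 3854 (grid 76) = true := by
  decide +kernel

lemma g35_c0 : certC 16384 330846699520 76 589824 64 15 3854 3852 (614400, 614400) = true := by
  decide +kernel

lemma g35_A (x y ρ : ℝ) (h : ((330846699520 : ℕ) : ℝ) ≤ ρ * ((16384 : ℕ) : ℝ) ^ 2) :
    ((3854 : ℕ) : ℕ∞) ≤ (encq x y ρ).encard ∨
      (ρ * ((16384 : ℕ) : ℝ) ^ 2 = (330846699520 : ℕ) ∧ (encq x y ρ).encard = (3852 : ℕ)) := by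
  refine thmA 16384 330846699520 76 589824 64 15 3854 3852 606208 606208 [(614400, 614400)] (by norm_num) (by norm_num) g35_a ?_ x y ρ h
  intro c hc
  simp only [List.mem_cons, List.not_mem_nil, or_false] at hc
  rcases hc with rfl
  · exact g35_c0

lemma g35_m : marg 16384 330846699520 76 589824 (614400, 614400) = true := by
  decide +kernel

lemma g35_b : (grid 76).countP (condB 16384 330846699520 (614400, 614400) (69) (13) 80773119) = 3853 := by
  decide +kernel

theorem g35_non : ¬ IsMC 3853 :=
  thmC 16384 330846699520 3854 3852 3853 (by norm_num) g35_A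
    (thmB 16384 330846699520 76 589824 3853 (614400, 614400) (69) (13) 80773119 (by norm_num) g35_m g35_b) (by norm_num) (by norm_num)

end Pool.Agent.H.MP_b0ed8d_nt
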