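import Mathlib
import Pool.Agent.H.MP_b0ed8d_nt.C

namespace Pool.Agent.H.MP_b0ed8d_nt

lemma s5_a : chk (ok [(1003520, 1003520), (1011712, 1003520), (1003520, 1011712), (1011712, 1011712)] 64) 16384 958348132352 15 999424 999424 16384 11204 (grid 124) = true := by
  decide +kernel

lemma s5_c0 : certC 16384 958348132352 124 983040 64 15 11204 11202 (1003520, 1003520) = true := by
  decide +kernel

lemma s5_c1 : certC 16384 958348132352 124 983040 64 15 11204 11202 (1011712, 1003520) = true := by
  decide +kernel

lemma s5_c2 : certC 16384 958348132352 124 983040 64 15 11204 11202 (1003520, 1011712) = true := by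
  decide +kernel

lemma s5_c3 : certC 16384 958348132352 124 983040 64 15 11204 11202 (1011712, 1011712) = true := by
  decide +kernel

lemma s5_A (x y ρ : ℝ) (h : ((958348132352 : ℕ) : ℝ) ≤ ρ * ((16384 : ℕ) : ℝ) ^ 2) :
    ((11204 : ℕ) : ℕ∞) ≤ (encq x y ρ).encard ∨
      (ρ * ((16384 : ℕ) : ℝ) ^ 2 = (958348132352 : ℕ) ∧ (encq x y ρ).encard = (11202 : ℕ)) := by
  refine thmA 16384 958348132352 124 983040 64 15 11204 11202 999424 999424 [(1003520, 1003520), (1011712, 1003520), (1003520, 1011712), (1011712, 1011712)] (by norm_num) (by norm_num) s5_a ?_ x y ρ h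
  intro c hc
  simp only [List.mem_cons, List.not_mem_nil, or_false] at hc
  rcases hc with rfl | rfl | rfl | rfl
  · exact s5_c0
  · exact s5_c1
  · exact s5_c2
  · exact s5_c3

lemma s5_m : marg 16384 958348132352 124 983040 (1003520, 1003520) = true := by
  decide +kernel

lemma s5_b : (grid 124).countP (condB 16384 958348132352 (1003520, 1003520) (239) (-1) 467943423) = 11203 := by
  decide +kernel

theorem s5_non : ¬ IsMC 11203 :=
  thmC 16384 958348132352 11204 11202 11203 (by norm_num) s5_A
    (thmB 16384 958348132352 124 983040 11203 (1003520, 1003520) (239) (-1) 467943423 (by norm_num) s5_m s5_b) (by norm_num) (by norm_num)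

end Pool.Agent.H.MP_b0ed8d_nt
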