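import Mathlib
import Pool.Agent.H.MP_b0ed8d_nt.C

namespace Pool.Agent.H.MP_b0ed8d_nt

lemma as_a : chk (ok [(674816, 670720), (670720, 674816), (683008, 670720), (687104, 674816), (674816, 687104), (670720, 683008), (683008, 687104), (687104, 683008)] 64) 26624 396623872000 16 665600 665600 26624 1750 (grid 52) = true := by
  decide +kernel

lemma as_c0 : certC 26624 396623872000 52 638976 64 16 1750 1748 (674816, 670720) = true := by
  decide +kernel

lemma as_c1 : certC 26624 396623872000 52 638976 64 16 1750 1748 (670720, 674816) = true := by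
  decide +kernel

lemma as_c2 : certC 26624 396623872000 52 638976 64 16 1750 1748 (683008, 670720) = true := by
  decide +kernel

lemma as_c3 : certC 26624 396623872000 52 638976 64 16 1750 1748 (687104, 674816) = true := by
  decide +kernel

lemma as_c4 : certC 26624 396623872000 52 638976 64 16 1750 1748 (674816, 687104) = true := by
  decide +kernel

lemma as_c5 : certC 26624 396623872000 52 638976 64 16 1750 1748 (670720, 683008) = true := by
  decide +kernel

lemma as_c6 : certC 26624 396623872000 52 638976 64 16 1750 1748 (683008, 687104) = true := by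
  decide +kernel

lemma as_c7 : certC 26624 396623872000 52 638976 64 16 1750 1748 (687104, 683008) = true := by
  decide +kernel

lemma as_A (x y ρ : ℝ) (h : ((396623872000 : ℕ) : ℝ) ≤ ρ * ((26624 : ℕ) : ℝ) ^ 2) :
    ((1750 : ℕ) : ℕ∞) ≤ (encq x y ρ).encard ∨
      (ρ * ((26624 : ℕ) : ℝ) ^ 2 = (396623872000 : ℕ) ∧ (encq x y ρ).encard = (1748 : ℕ)) := by
  refine thmA 26624 396623872000 52 638976 64 16 1750 1748 665600 665600 [(674816, 670720), (670720, 674816), (683008, 670720), (687104, 674816), (674816, 687104), (670720, 683008), (683008, 687104), (687104, 683008)] (by norm_num) (by norm_num) as_a ?_ x y ρ h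
  intro c hc
  simp only [List.mem_cons, List.not_mem_nil, or_false] at hc
  rcases hc with rfl | rfl | rfl | rfl | rfl | rfl | rfl | rfl
  · exact as_c0
  · exact as_c1
  · exact as_c2
  · exact as_c3
  · exact as_c4
  · exact as_c5
  · exact as_c6
  · exact as_c7

lemma as_m : marg 26624 396623872000 52 638976 (674816, 670720) = true := by
  decide +kernel

lemma as_b : (grid 52).countP (condB 26624 396623872000 (674816, 670720) (-607) (99) 774655999) = 1749 := by
  decide +kernel

theorem as_non : ¬ IsMC 1749 :=
  thmC 26624 396623872000 1750 1748 1749 (by norm_num) as_A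
    (thmB 26624 396623872000 52 638976 1749 (674816, 670720) (-607) (99) 774655999 (by norm_num) as_m as_b) (by norm_num) (by norm_num)

end Pool.Agent.H.MP_b0ed8d_nt
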